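import Pool.Agent.Helper27.CB.St

set_option autoImplicit false

open MeasureTheory Set
open scoped ENNReal Pointwise

namespace Pool.Agent.Helper79.CB

open Pool.Agent.Helper27.CB

/-- the linear map with the columns `z`, `d` -/
private noncomputable def TT (z d : E2) : E2 →ₗ[ℝ] E2 where
  toFun x := x 0 • z + x 1 • d
  map_add' x y := by
    simp only [PiLp.add_apply, add_smul]
    abel
  map_smul' c x := by
    simp only [PiLp.smul_apply, smul_eq_mul, mul_smul, smul_add, RingHom.id_apply]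

private theorem TT_apply (z d x : E2) : TT z d x = x 0 • z + x 1 • d := rfl

private theorem det_TT (z d : E2) : LinearMap.det (TT z d) = z 0 * d 1 - z 1 * d 0 := by
  rw [← LinearMap.det_toMatrix (EuclideanSpace.basisFun (Fin 2) ℝ).toBasis, Matrix.det_fin_two]
  simp only [LinearMap.toMatrix_apply, OrthonormalBasis.coe_toBasis, TT_apply,
    OrthonormalBasis.coe_toBasis_repr_apply, EuclideanSpace.basisFun_apply, EuclideanSpace.basisFun_repr]
  simp
  ring

/-- the cells of the lattice `ℤ × ℤ` -/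
private def UU (k : ℤ × ℤ) : Set E2 :=
  {x | x 0 ∈ Ico (k.1 : ℝ) (k.1 + 1) ∧ x 1 ∈ Ico (k.2 : ℝ) (k.2 + 1)}

private theorem UU_pre (k : ℤ × ℤ) : UU k = (@WithLp.ofLp 2 (Fin 2 → ℝ)) ⁻¹'
    (Set.pi univ fun i : Fin 2 => Ico ((![(k.1 : ℝ), (k.2 : ℝ)] : Fin 2 → ℝ) i)
      ((![(k.1 : ℝ) + 1, (k.2 : ℝ) + 1] : Fin 2 → ℝ) i)) := by
  ext x
  simp only [UU, mem_preimage, Set.mem_pi, mem_univ, forall_true_left, Fin.forall_fin_two, mem_ofPred_eq]
  rfl

private theorem UU_meas (k : ℤ × ℤ) : MeasurableSet (UU k) := by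
  rw [UU_pre]
  exact (PiLp.volume_preserving_ofLp (Fin 2)).measurable
    (MeasurableSet.univ_pi fun _ => measurableSet_Ico)

private theorem UU_vol (k : ℤ × ℤ) : volume (UU k) = 1 := by
  rw [UU_pre, (PiLp.volume_preserving_ofLp (Fin 2)).measure_preimage
    (MeasurableSet.univ_pi fun _ => measurableSet_Ico).nullMeasurableSet, Real.volume_pi_Ico]
  simp

private theorem UU_disj : Pairwise (Function.onFun Disjoint UU) := by
  intro k l hkl
  refine Set.disjoint_left.2 fun x hx hy => hkl ?_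
  have h1 : ∀ (t : ℝ) (m n : ℤ), t ∈ Ico (m : ℝ) (m + 1) → t ∈ Ico (n : ℝ) (n + 1) → m = n := by
    intro t m n hm hn
    rw [← Int.floor_eq_iff.2 ⟨hm.1, hm.2⟩, ← Int.floor_eq_iff.2 ⟨hn.1, hn.2⟩]
  exact Prod.ext (h1 _ _ _ hx.1 hy.1) (h1 _ _ _ hx.2 hy.2)

theorem hDNA : StDNA := by
  intro K hK z d hD
  obtain ⟨R, hR⟩ := hK.isBounded.subset_closedBall (0 : E2)
  set R' : ℝ := max R 0 with hR'
  have hKR : ∀ x ∈ K, ‖x‖ ≤ R' := fun x hx => (mem_closedBall_zero_iff.1 (hR hx)).trans (le_max_left _ _)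
  have hR0 : 0 ≤ R' := le_max_right _ _
  refine ⟨R' + ‖z‖ + ‖d‖, by positivity, fun r hr => ?_⟩
  set C : ℝ := R' + ‖z‖ + ‖d‖ with hC
  set B : Set E2 := Metric.closedBall (0 : E2) (r + C) with hB
  set D : ℝ := z 0 * d 1 - z 1 * d 0 with hDdef
  have hdet : LinearMap.det (TT z d) = D := det_TT z d
  have hpre : volume (TT z d ⁻¹' B) = ENNReal.ofReal |D⁻¹| * volume B := by
    have h := Measure.addHaar_preimage_linearMap (μ := (volume : Measure E2)) (f := TT z d)
      (by rw [hdet]; exact hD.ne') B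
    rw [hdet] at h
    exact h
  have hterm : ∀ k : ℤ × ℤ, volume (((fun x : E2 => x + ((k.1 : ℝ) • z + (k.2 : ℝ) • d)) '' K) ∩
      Metric.closedBall (0 : E2) r) ≤ volume K * volume (UU k ∩ TT z d ⁻¹' B) := by
    intro k
    rcases Set.eq_empty_or_nonempty (((fun x : E2 => x + ((k.1 : ℝ) • z + (k.2 : ℝ) • d)) '' K) ∩
      Metric.closedBall (0 : E2) r) with h0 | ⟨y, ⟨x, hx, hxy⟩, hy⟩
    · rw [h0, measure_empty]
      exact zero_le
    · have hv : ‖(k.1 : ℝ) • z + (k.2 : ℝ) • d‖ ≤ r + R' := by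
        have h1 : (k.1 : ℝ) • z + (k.2 : ℝ) • d = y - x := by
          rw [← hxy]
          simp
        rw [h1]
        exact (norm_sub_le _ _).trans (add_le_add (mem_closedBall_zero_iff.1 hy) (hKR x hx))
      have hsub : UU k ⊆ TT z d ⁻¹' B := by
        intro w hw
        show TT z d w ∈ Metric.closedBall (0 : E2) (r + C)
        rw [mem_closedBall_zero_iff, TT_apply]
        have h2 : w 0 • z + w 1 • d = ((k.1 : ℝ) • z + (k.2 : ℝ) • d) + ((w 0 - k.1) • z + (w 1 - k.2) • d) := by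
          rw [sub_smul, sub_smul]
          abel
        have h3 : ‖(w 0 - (k.1 : ℝ)) • z‖ ≤ ‖z‖ := by
          rw [norm_smul, Real.norm_eq_abs, abs_of_nonneg (sub_nonneg.2 hw.1.1)]
          exact mul_le_of_le_one_left (norm_nonneg _) (by linarith [hw.1.2])
        have h4 : ‖(w 1 - (k.2 : ℝ)) • d‖ ≤ ‖d‖ := by
          rw [norm_smul, Real.norm_eq_abs, abs_of_nonneg (sub_nonneg.2 hw.2.1)]
          exact mul_le_of_le_one_left (norm_nonneg _) (by linarith [hw.2.2])
        rw [h2]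
        calc ‖((k.1 : ℝ) • z + (k.2 : ℝ) • d) + ((w 0 - k.1) • z + (w 1 - k.2) • d)‖
            ≤ ‖(k.1 : ℝ) • z + (k.2 : ℝ) • d‖ + ‖(w 0 - k.1) • z + (w 1 - k.2) • d‖ := norm_add_le _ _
          _ ≤ (r + R') + (‖z‖ + ‖d‖) := add_le_add hv ((norm_add_le _ _).trans (add_le_add h3 h4))
          _ = r + C := by rw [hC]; ring
      rw [inter_eq_left.2 hsub, UU_vol, mul_one]
      refine (measure_mono inter_subset_left).trans ?_
      rw [image_add_right, measure_preimage_add_right]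
  have hsum : (∑' k : ℤ × ℤ, volume (((fun x : E2 => x + ((k.1 : ℝ) • z + (k.2 : ℝ) • d)) '' K) ∩
      Metric.closedBall (0 : E2) r)) ≤ volume K * volume (TT z d ⁻¹' B) := by
    have hmB : MeasurableSet (TT z d ⁻¹' B) := by
      have : Continuous (TT z d) := LinearMap.continuous_of_finiteDimensional _
      exact this.measurable Metric.isClosed_closedBall.measurableSet
    have hdisj : Pairwise (Function.onFun Disjoint fun k : ℤ × ℤ => UU k ∩ TT z d ⁻¹' B) := by
      intro k l hkl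
      exact (UU_disj hkl).mono inter_subset_left inter_subset_left
    calc (∑' k : ℤ × ℤ, volume (((fun x : E2 => x + ((k.1 : ℝ) • z + (k.2 : ℝ) • d)) '' K) ∩
      Metric.closedBall (0 : E2) r)) ≤ ∑' k : ℤ × ℤ, volume K * volume (UU k ∩ TT z d ⁻¹' B) :=
          ENNReal.tsum_le_tsum hterm
      _ = volume K * volume (⋃ k : ℤ × ℤ, UU k ∩ TT z d ⁻¹' B) := by
          rw [ENNReal.tsum_mul_left, measure_iUnion hdisj fun k => (UU_meas k).inter hmB]
      _ ≤ volume K * volume (TT z d ⁻¹' B) := by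
          gcongr
          exact iUnion_subset fun k => inter_subset_right
  refine (mul_le_mul_left hsum _).trans ?_
  rw [hpre, abs_of_pos (inv_pos.2 hD)]
  have hBv : volume B = ENNReal.ofReal (Real.pi * (r + C) ^ 2) := by
    rw [hB, EuclideanSpace.volume_closedBall_fin_two]
    rw [← ENNReal.ofReal_pow (by positivity), mul_comm Real.pi, ENNReal.ofReal_mul (by positivity)]
  rw [hBv]
  have h5 : ENNReal.ofReal D⁻¹ * ENNReal.ofReal D = 1 := by
    rw [← ENNReal.ofReal_mul (inv_pos.2 hD).le, inv_mul_cancel₀ hD.ne', ENNReal.ofReal_one]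
  calc volume K * (ENNReal.ofReal D⁻¹ * ENNReal.ofReal (Real.pi * (r + C) ^ 2)) * ENNReal.ofReal D
      = volume K * ENNReal.ofReal (Real.pi * (r + C) ^ 2) * (ENNReal.ofReal D⁻¹ * ENNReal.ofReal D) := by ring
    _ ≤ volume K * ENNReal.ofReal (Real.pi * (r + C) ^ 2) := by rw [h5, mul_one]

end Pool.Agent.Helper79.CB
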